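import Pool.Agent.Helper91.IP.Defs

/-!
# Project IP: statements of the pieces (stubs)
-/

namespace Pool.Agent.Helper91.IP

open Finset Equiv Matrix

variable {V : Type} [Fintype V] [DecidableEq V]

/-! ## A: octopus inequality -/

/-- IP-A1a: `E_J` is a projection -/
theorem e4_nonneg (f : Perm V → ℝ) {a b c d : V} (h : D4 a b c d) : 0 ≤ e4 f a b c d := by
  sorry

/-- IP-A1b: the inequality in `A_5` -/
theorem e4_five (f : Perm V → ℝ) {o a b c d : V} (h : D4 a b c d) (ha : o ≠ a) (hb : o ≠ b)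
    (hc : o ≠ c) (hd : o ≠ d) :
    e4 f a b c d ≤ e4 f o a b c + e4 f o a b d + e4 f o a c d + e4 f o b c d := by
  sorry

/-- IP-A2: the square of `X = ∑_{i<j} c_i c_j τ_ij` when `∑ c = 0` -/
theorem X_sq (f : Perm V → ℝ) (c : V → ℝ) (hc : ∑ x, c x = 0) :
    ∑ s, ((1 / 2) * ∑ i, ∑ j, (if i = j then 0 else c i * c j * f (swap i j * s))) ^ 2 =
      ((1 / 2) * ∑ x, c x ^ 2) ^ 2 * nsq f +
      (1 / 24) * ∑ i, ∑ j, ∑ k, ∑ l,
        (if D4 i j k l then c i * c j * c k * c l * e4 f i j k l else 0) := by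
  sorry

/-- IP-A3: the octopus inequality (Caputo, Liggett, Richthammer); uses A1, A2 -/
theorem octopus (f : Perm V → ℝ) (o : V) (c : V → ℝ) (hc : ∀ y, 0 ≤ c y) :
    ∑ y ∈ univ.erase o, ∑ z ∈ univ.erase o, c y * c z * dif f y z ≤
      2 * (∑ y ∈ univ.erase o, c y) * ∑ y ∈ univ.erase o, c y * dif f o y := by
  sorry

/-! ## B: doubling and smoothing -/

/-- IP-B1 (uses A3) -/
theorem En_kmul_self (P : V → V → ℝ) (hs : ∀ x y, P x y = P y x) (hn : ∀ x y, 0 ≤ P x y)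
    (hr : ∀ x, ∑ y, P x y = 1) (f : Perm V → ℝ) : En (kmul P P) f ≤ 2 * En P f := by
  sorry

/-- IP-B2 (uses B1) -/
theorem smoothing {w : V → V → ℝ} {γ : ℝ} (h : Gap w γ) {t : ℝ} (ht : 0 < t) :
    ∃ Q : V → V → ℝ, Smooth Q (Real.exp (-(t * γ))) ∧ ∀ f : Perm V → ℝ, En Q f ≤ t * En w f := by
  sorry

/-! ## C: levels -/

/-- IP-C1: the one body estimate -/
theorem pure_energy {Q : V → V → ℝ} {ε : ℝ} (hQ : Smooth Q ε) (hε : 0 ≤ ε) (hε1 : ε ≤ 1)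
    (S : Finset V) (f : Perm V → ℝ) (hf : f ∈ Fs S) (ho : ∀ i ∈ S, Orth f (Fs (S.erase i))) :
    (S.card : ℝ) * ((1 - (S.card : ℝ) / Fintype.card V) * (1 - ε) - ε) * nsq f ≤ En Q f := by
  sorry

/-- IP-C2 (linear algebra) -/
theorem sup_energy {ι κ : Type} [Fintype ι] [DecidableEq ι] (A : Matrix ι ι ℝ) (hA : A.IsSymm)
    (U : κ → Submodule ℝ (ι → ℝ)) (hinv : ∀ k, ∀ u ∈ U k, A *ᵥ u ∈ U k) (c : ℝ)
    (hc : ∀ k, ∀ u ∈ U k, c * (u ⬝ᵥ u) ≤ u ⬝ᵥ (A *ᵥ u)) :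
    ∀ u ∈ ⨆ k, U k, c * (u ⬝ᵥ u) ≤ u ⬝ᵥ (A *ᵥ u) := by
  sorry

/-- IP-C3a -/
theorem PF_isSymm (S : Finset V) : (PF S).IsSymm := by sorry

/-- IP-C3a -/
theorem PF_idem (S : Finset V) : PF S * PF S = PF S := by sorry

/-- IP-C3a -/
theorem PF_mem (S : Finset V) (f : Perm V → ℝ) : PF S *ᵥ f ∈ Fs S := by sorry

/-- IP-C3a -/
theorem PF_of_mem (S : Finset V) {f : Perm V → ℝ} (hf : f ∈ Fs S) : PF S *ᵥ f = f := by sorry

/-- IP-C3a -/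
theorem PF_Vl (S : Finset V) (j : ℕ) {f : Perm V → ℝ} (hf : f ∈ Vl V j) : PF S *ᵥ f ∈ Vl V j := by
  sorry

/-- IP-C3a -/
theorem Rm_Vl (g : Perm V) (j : ℕ) {f : Perm V → ℝ} (hf : f ∈ Vl V j) : Rm g *ᵥ f ∈ Vl V j := by
  sorry

/-- IP-C3a -/
theorem Lm_Vl (g : Perm V) (j : ℕ) {f : Perm V → ℝ} (hf : f ∈ Vl V j) : Lm g *ᵥ f ∈ Vl V j := by
  sorry

/-- IP-C3b (uses C3a) -/
theorem level_decomp (j : ℕ) (hj : 1 ≤ j) {f : Perm V → ℝ} (hf : f ∈ Vl V j)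
    (ho : Orth f (Vl V (j - 1))) :
    f ∈ ⨆ S : {S : Finset V // S.card = j}, (Fs (S : Finset V) ⊓ Oc (Vl V (j - 1))) := by
  sorry

/-- IP-C4 (uses C1, C2, C3, E1) -/
theorem level_energy {Q : V → V → ℝ} {ε : ℝ} (hQ : Smooth Q ε) (hε : 0 ≤ ε) (hε1 : ε ≤ 1)
    (j : ℕ) (hj : 1 ≤ j) {f : Perm V → ℝ} (hf : f ∈ Vl V j) (ho : Orth f (Vl V (j - 1))) :
    (j : ℝ) * ((1 - (j : ℝ) / Fintype.card V) * (1 - ε) - ε) * nsq f ≤ En Q f := by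
  sorry

/-- IP-C5 -/
theorem finrank_Vl (j : ℕ) (hj : j ≤ Fintype.card V) :
    Module.finrank ℝ (Vl V j) ≤ (Fintype.card V).choose j * Fintype.card V ^ j := by
  sorry

/-- IP-C6 (uses C4, B2): the level energy for the process itself -/
theorem level_energy_w {w : V → V → ℝ} {γ : ℝ} (h : Gap w γ) (hn : 4 ≤ Fintype.card V) (j : ℕ)
    (hj : 1 ≤ j) (hj2 : j + Fintype.card V / 4 ≤ Fintype.card V) {f : Perm V → ℝ}
    (hf : f ∈ Vl V j) (ho : Orth f (Vl V (j - 1))) :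
    (γ / 40) * j * nsq f ≤ En w f := by
  sorry

/-! ## D: the complete graph -/

/-- IP-D1: an elementary bound on the Jucys–Murphy elements -/
theorem jucys (B : Finset V) (U : Submodule ℝ (Perm V → ℝ))
    (hU : ∀ x ∈ B, ∀ y ∈ B, ∀ f ∈ U, (fun s => f (swap x y * s)) ∈ U) (m : ℕ)
    (hm : ∀ Y ⊆ B, Y.card = m → ∀ f ∈ U,
      (∀ x ∈ Y, ∀ y ∈ Y, (fun s => f (swap x y * s)) = f) → f = 0)
    (x : V) (hx : x ∈ B) (f : Perm V → ℝ) (hf : f ∈ U) :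
    ∑ y ∈ B.erase x, cor f (swap x y) ≤ ((m : ℝ) - 2) * nsq f := by
  sorry

/-- IP-D2 (uses D1) -/
theorem complete_energy (j : ℕ) (hj : 1 ≤ j) (hjn : j ≤ Fintype.card V) (f : Perm V → ℝ)
    (ho : Orth f (Vl V (j - 1))) :
    ((j : ℝ) / 2) * nsq f ≤ En (fun _ _ => 1 / (Fintype.card V : ℝ)) f := by
  sorry

/-- IP-D3 (uses B2) -/
theorem complete_compare {w : V → V → ℝ} {γ : ℝ} (h : Gap w γ) (hn : 2 ≤ Fintype.card V)
    (f : Perm V → ℝ) :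
    γ / (2 * Real.log (2 * Fintype.card V)) * En (fun _ _ => 1 / (Fintype.card V : ℝ)) f
      ≤ En w f := by
  sorry

/-! ## E: matrices and traces -/

/-- IP-E1 -/
theorem Am_isSymm (w : V → V → ℝ) : (Am w).IsSymm := by sorry

/-- IP-E1 -/
theorem Am_quad (w : V → V → ℝ) (f : Perm V → ℝ) : f ⬝ᵥ (Am w *ᵥ f) = En w f := by sorry

/-- IP-E1 -/
theorem Am_comm_Rm (w : V → V → ℝ) (g : Perm V) : Am w * Rm g = Rm g * Am w := by sorry

/-- IP-E1 -/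
theorem Am_Fs (w : V → V → ℝ) (S : Finset V) {f : Perm V → ℝ} (hf : f ∈ Fs S) :
    Am w *ᵥ f ∈ Fs S := by sorry

/-- IP-E1 -/
theorem Am_Vl (w : V → V → ℝ) (j : ℕ) {f : Perm V → ℝ} (hf : f ∈ Vl V j) :
    Am w *ᵥ f ∈ Vl V j := by sorry

/-- IP-E2 -/
theorem Kt_nonneg (w : V → V → ℝ) (hw : ∀ x y, 0 ≤ w x y) {t : ℝ} (ht : 0 ≤ t)
    (s s' : Perm V) : 0 ≤ Kt w t s s' := by sorry

/-- IP-E2 -/
theorem Kt_isSymm (w : V → V → ℝ) (t : ℝ) : (Kt w t).IsSymm := by sorry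

/-- IP-E2 -/
theorem Kt_add (w : V → V → ℝ) (t u : ℝ) : Kt w (t + u) = Kt w t * Kt w u := by sorry

/-- IP-E2 -/
theorem Kt_trans (w : V → V → ℝ) (t : ℝ) (s s' : Perm V) : Kt w t s s' = Kt w t 1 (s' * s⁻¹) := by
  sorry

/-- IP-E2 -/
theorem Kt_row (w : V → V → ℝ) (t : ℝ) (s : Perm V) : ∑ s', Kt w t s s' = 1 := by sorry

/-- IP-E3 (linear algebra) -/
theorem trace_exp_le {ι : Type} [Fintype ι] [DecidableEq ι] (A P : Matrix ι ι ℝ) (hA : A.IsSymm)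
    (hP : P.IsSymm) (hPP : P * P = P) (hAP : A * P = P * A) (e : ℝ)
    (he : ∀ u : ι → ℝ, P *ᵥ u = u → e * (u ⬝ᵥ u) ≤ u ⬝ᵥ (A *ᵥ u)) (s : ℝ) {t : ℝ} (ht : 0 ≤ t) :
    trace (NormedSpace.exp (-((s + t) • A)) * P) ≤
      Real.exp (-(t * e)) * trace (NormedSpace.exp (-(s • A)) * P) := by
  sorry

/-- IP-E4 (linear algebra): orthogonal projections as matrices -/
theorem exists_proj {ι : Type} [Fintype ι] [DecidableEq ι] (U : Submodule ℝ (ι → ℝ)) :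
    ∃ P : Matrix ι ι ℝ, P.IsSymm ∧ P * P = P ∧ (∀ u, P *ᵥ u ∈ U) ∧ (∀ u ∈ U, P *ᵥ u = u) ∧
      trace P = Module.finrank ℝ U ∧
      ∀ M : Matrix ι ι ℝ, (∀ u ∈ U, M *ᵥ u ∈ U) → (∀ u ∈ U, Mᵀ *ᵥ u ∈ U) → M * P = P * M := by
  sorry

/-- IP-E5 (uses C3, C5, E1, E3, E4) -/
theorem trace_PF {w : V → V → ℝ} (hV : 1 ≤ Fintype.card V) (S : Finset V) (c : ℝ)
    (hc : ∀ j : ℕ, 1 ≤ j → j ≤ S.card → ∀ f ∈ Vl V j, Orth f (Vl V (j - 1)) →
      c * j * nsq f ≤ En w f) (hw : ∀ x y, 0 ≤ w x y) {T : ℝ} (hT : 0 ≤ T) :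
    trace (Kt w T * PF S) ≤ (1 + Fintype.card V * Real.exp (-(c * T))) ^ Fintype.card V := by
  sorry

/-- IP-E6 (uses E2): the commutator trick -/
theorem trace_Kap {w : V → V → ℝ} (hw : ∀ x y, 0 ≤ w x y) {T : ℝ} (hT : 0 ≤ T) (S : Finset V) :
    trace (Kt w T * Kap S) ≤
      (Nat.card (ConjClasses (Perm {x : V // x ∉ S})) : ℝ) * trace (Kt w T * PF S) := by
  sorry

/-- IP-E7 -/
theorem card_conjClasses_perm (α : Type) [Fintype α] [DecidableEq α] :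
    Nat.card (ConjClasses (Perm α)) ≤ 2 ^ Fintype.card α := by
  sorry

/-- IP-E8: the representation lemma -/
theorem rep_lemma (R : Fin 4 → Finset V) (hR : ∀ i j, i ≠ j → Disjoint (R i) (R j))
    (E : Matrix (Perm V) (Perm V) ℝ) (hE : E.IsSymm) (hEE : E * E = E)
    (hc : ∀ g, E * Rm g = Rm g * E) :
    4 * Real.sqrt (trace E) ≤ ∑ i, trace (Kap (R i)ᶜ * E) := by
  sorry

/-- IP-E9a (linear algebra): spectral resolution -/
theorem spectral_res {ι : Type} [Fintype ι] [DecidableEq ι] (A : Matrix ι ι ℝ) (hA : A.IsSymm) :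
    ∃ (L : Finset ℝ) (E : ℝ → Matrix ι ι ℝ),
      (∀ a ∈ L, (E a).IsSymm ∧ E a * E a = E a ∧ 0 ≤ trace (E a)) ∧
      (∀ a ∈ L, ∀ M : Matrix ι ι ℝ, M * A = A * M → M * E a = E a * M) ∧
      ∀ t : ℝ, NormedSpace.exp (-(t • A)) = ∑ a ∈ L, Real.exp (-(t * a)) • E a := by
  sorry

/-- IP-E9b (uses E1, E8, E9a) -/
theorem trace_sq (w : V → V → ℝ) (R : Fin 4 → Finset V)
    (hR : ∀ i j, i ≠ j → Disjoint (R i) (R j)) (T B : ℝ)
    (hB : ∀ i, trace (Kt w T * Kap (R i)ᶜ) ≤ B) : trace (Kt w (2 * T)) ≤ B ^ 2 := by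
  sorry

/-- IP-F1 (uses D2, D3, E1, E3, E4): the high levels -/
theorem trace_split {w : V → V → ℝ} {γ : ℝ} (h : Gap w γ) (hn : 2 ≤ Fintype.card V) (k : ℕ)
    (hk : k + 1 ≤ Fintype.card V) (c : ℝ)
    (hc : ∀ j : ℕ, 1 ≤ j → j ≤ k → ∀ f ∈ Vl V j, Orth f (Vl V (j - 1)) →
      c * j * nsq f ≤ En w f) {T t : ℝ} (hT : 0 ≤ T) (ht : 0 ≤ t) :
    trace (Kt w (T + t)) ≤ (1 + Fintype.card V * Real.exp (-(c * (T + t)))) ^ Fintype.card V +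
      Real.exp (-(t * (γ * (k + 1) / (4 * Real.log (2 * Fintype.card V))))) * trace (Kt w T) := by
  sorry

/-- IP-F2 (real analysis; uses everything above) -/
theorem trace_final : ∃ C : ℝ, 0 < C ∧ ∀ (V : Type) [Fintype V] [DecidableEq V]
    (w : V → V → ℝ) (γ : ℝ), Gap w γ → 2 ≤ Fintype.card V → ∀ t : ℝ,
    C * (1 / γ) * Real.log (Fintype.card V) ≤ t → trace (Kt w (2 * t)) ≤ 5 / 4 := by
  sorry

/-! ## G: mixing times -/

/-- IP-G1 (uses E2) -/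
theorem tv_Kt (w : V → V → ℝ) (hw : ∀ x y, 0 ≤ w x y) {t : ℝ} (ht : 0 ≤ t) (s : Perm V) :
    (1 / 2) * ∑ s', |Kt w t s s' - 1 / (Nat.factorial (Fintype.card V) : ℝ)| ≤
      (1 / 2) * Real.sqrt (trace (Kt w (2 * t)) - 1) := by
  sorry

/-- IP-G2: the interchange process of a graph in the form `Kt` -/
theorem ker_ip (G : SimpleGraph V) [DecidableRel G.Adj] (t : ℝ) :
    ∃ e : (V ≃ Fin (Fintype.card V)) ≃ Perm V,
      ∀ σ σ', ker (ip G) t σ σ' = Kt (srw G) t (e σ) (e σ') := by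
  sorry

/-- IP-G3: the spectral gap of a connected graph -/
theorem gap_srw (G : SimpleGraph V) [DecidableRel G.Adj] (hG : G.Connected)
    (hn : 2 ≤ Fintype.card V) :
    Gap (srw G) (gapR (srw G)) ∧ ∃ u : V → ℝ, u ≠ 0 ∧ ∑ x, u x = 0 ∧
      ∀ x, ∑ y, srw G x y * (u x - u y) = gapR (srw G) * u x := by
  sorry

/-- IP-G4 (uses G3): the relaxation time is at most the mixing time over `log 2` -/
theorem trel_le_tmix (G : SimpleGraph V) [DecidableRel G.Adj] (hG : G.Connected)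
    (hn : 2 ≤ Fintype.card V) : trel (srw G) * Real.log 2 ≤ tmix (srw G) := by
  sorry

/-- IP-G5 (uses F2, G1, G2, G3, G4) -/
theorem main : ∃ C : ℝ, ∀ (V : Type) [Fintype V] [DecidableEq V] (G : SimpleGraph V)
    [DecidableRel G.Adj], G.Connected → 2 ≤ Fintype.card V →
    tmix (ip G) ≤ C * trel (srw G) * Real.log (Fintype.card V) ∧
    tmix (ip G) ≤ C * tmix (srw G) * Real.log (Fintype.card V) := by
  sorry

end Pool.Agent.Helper91.IP
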